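import Pool.Agent.H765.BZ.Stm

set_option autoImplicit false
set_option linter.unusedSectionVars false

/-! LIM2 (for helper765). -/

namespace Pool.Agent.H800.BZ.LIM2

open PowerSeries Finset Nat Real Filter Topology
open Pool.Agent.H765.BZ Pool.Agent.H765.CS

theorem coeff_expR (c : ℝ) (k : ℕ) : coeff k (expR c) = c ^ k / (k ! : ℝ) := by
  rw [expR, coeff_rescale, PowerSeries.coeff_exp]
  simp [div_eq_mul_inv]

theorem th_expR (c : ℝ) : th (expR c) = expR c * (C c * X) := by
  ext k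
  rw [th, coeff_mk, ← mul_assoc]
  rcases k with _ | k
  · rw [coeff_zero_mul_X]
    simp
  · rw [coeff_succ_mul_X, mul_comm (expR c), coeff_C_mul, coeff_expR, coeff_expR,
      Nat.factorial_succ]
    have h1 : ((k ! : ℕ) : ℝ) ≠ 0 := by exact_mod_cast (Nat.factorial_pos k).ne'
    have h2 : ((k + 1 : ℕ) : ℝ) ≠ 0 := by exact_mod_cast (Nat.succ_pos k).ne'
    push_cast at h2 ⊢
    field_simp
    ring

theorem odd_le (j : ℕ) : (((2 * j + 1)‼ : ℕ) : ℝ) ≤ 3 ^ j * (j ! : ℝ) := by
  have h : (2 * j + 1)‼ ≤ 3 ^ j * j ! := by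
    induction j with
    | zero => simp
    | succ j ih =>
      have h1 : 2 * (j + 1) + 1 = (2 * j + 1) + 2 := by ring
      rw [h1, Nat.doubleFactorial_add_two, Nat.factorial_succ, pow_succ]
      calc (2 * j + 1 + 2) * (2 * j + 1)‼ ≤ (3 * (j + 1)) * (3 ^ j * j !) :=
            Nat.mul_le_mul (by omega) ih
        _ = _ := by ring
  exact_mod_cast h

theorem cv (γ c : ℝ) : Cv (expR γ * Tg (expR c)) := by
  set R : ℝ := max |γ| (3 * |c|) with hR
  have hR0 : 0 ≤ R := (abs_nonneg γ).trans (le_max_left _ _)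
  refine ⟨1, 2 * R, by positivity, fun k => ?_⟩
  rw [coeff_mul]
  have h1 : ∀ p ∈ antidiagonal k, |coeff p.1 (expR γ) * coeff p.2 (Tg (expR c))| ≤ R ^ k := by
    intro p hp
    rw [HasAntidiagonal.mem_antidiagonal] at hp
    have h2 : |coeff p.1 (expR γ)| ≤ R ^ p.1 := by
      rw [coeff_expR, abs_div, abs_pow, Nat.abs_cast]
      have h3 : (1 : ℝ) ≤ (p.1 ! : ℝ) := by exact_mod_cast Nat.factorial_pos p.1
      exact (div_le_self (by positivity) h3).trans (pow_le_pow_left₀ (abs_nonneg _) (le_max_left _ _) _)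
    have h4 : |coeff p.2 (Tg (expR c))| ≤ R ^ p.2 := by
      rw [Tg, coeff_mk, coeff_expR, abs_mul, abs_div, abs_pow, Nat.abs_cast, Nat.abs_cast]
      have h3 : (0 : ℝ) < (p.2 ! : ℝ) := by exact_mod_cast Nat.factorial_pos p.2
      have h5 := odd_le p.2
      calc (((2 * p.2 + 1)‼ : ℕ) : ℝ) * (|c| ^ p.2 / (p.2 ! : ℝ)) ≤
            (3 ^ p.2 * (p.2 ! : ℝ)) * (|c| ^ p.2 / (p.2 ! : ℝ)) :=
            mul_le_mul_of_nonneg_right h5 (by positivity)
        _ = (3 * |c|) ^ p.2 := by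
            rw [mul_pow]
            field_simp
        _ ≤ R ^ p.2 := pow_le_pow_left₀ (by positivity) (le_max_right _ _) _
    rw [abs_mul]
    calc _ ≤ R ^ p.1 * R ^ p.2 := mul_le_mul h2 h4 (abs_nonneg _) (by positivity)
      _ = R ^ k := by rw [← pow_add, hp]
  refine (Finset.abs_sum_le_sum_abs _ _).trans ((Finset.sum_le_card_nsmul _ _ _ h1).trans ?_)
  rw [Finset.Nat.card_antidiagonal, nsmul_eq_mul, one_mul, mul_pow]
  refine mul_le_mul_of_nonneg_right ?_ (by positivity)
  have h6 : k + 1 ≤ 2 ^ k := Nat.lt_two_pow_self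
  exact_mod_cast h6

theorem t_LIM2 (h1 : S_LOG) (h2 : S_ODE) (h3 : S_SUMS) : S_LIM2 := by
  rintro F a x s lam γ α ⟨d1, d2, d3, ⟨K, d4⟩, d5⟩ hcard
  obtain ⟨l0, l1, _, l3, _⟩ := h1
  -- the cardinality
  have c1 : ∀ N : ℕ, ∀ᶠ n in (F : Filter ℤ), N < (a n).card := by
    intro N
    have h : ∀ᶠ n in (F : Filter ℤ), ∀ i ∈ Finset.range (N + 1), (a n).card ≠ i :=
      (Filter.eventually_all_finset _).2 fun i _ => hcard i
    filter_upwards [h] with n hn
    by_contra hcon
    exact hn (a n).card (Finset.mem_range.2 (by omega)) rfl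
  have c2 : Tendsto (fun n => ((a n).card : ℝ) - 2) F atTop := by
    refine tendsto_atTop.2 fun b => ?_
    filter_upwards [c1 (⌈b⌉₊ + 2)] with n hn
    have h5 : b ≤ (⌈b⌉₊ : ℝ) := Nat.le_ceil b
    have h6 : ((⌈b⌉₊ + 2 : ℕ) : ℝ) ≤ ((a n).card : ℝ) := by exact_mod_cast hn.le
    push_cast at h6
    linarith
  have x0 : Tendsto x F (𝓝 0) := by
    rw [tendsto_zero_iff_abs_tendsto_zero]
    have h5 : Tendsto (fun n => K * (((a n).card : ℝ) - 2)⁻¹) F (𝓝 0) := by
      have := (tendsto_inv_atTop_zero.comp c2).const_mul K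
      rwa [mul_zero] at this
    refine squeeze_zero' (Eventually.of_forall fun n => abs_nonneg _) ?_ h5
    filter_upwards [d4, c1 2] with n hn hc
    have h6 : (0 : ℝ) < ((a n).card : ℝ) - 2 := by
      have : (2 : ℝ) < ((a n).card : ℝ) := by exact_mod_cast hc
      linarith
    rw [← div_eq_mul_inv, le_div_iff₀ h6]
    exact hn
  -- the sums
  let D : ℕ → ℤ → ℝ := fun k n =>
    ∑ l ∈ a n, 1 / (l : ℝ) ^ (2 * k) - (((a n).card - 2 : ℕ) : ℝ)
  have hD : ∀ k, 1 ≤ k → ∀ᶠ n in (F : Filter ℤ), |x n * D k n| ≤ K := by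
    intro k hk
    filter_upwards [d1, d4, c1 2] with n hn hK hc
    obtain ⟨h5, h6⟩ := h3 (a n) k (fun l hl => hn.two l hl) hk
    have h7 : (((a n).card - 2 : ℕ) : ℝ) = ((a n).card : ℝ) - 2 := by
      rw [Nat.cast_sub hc.le]
      norm_num
    have h8 : (1 : ℝ) ≤ ((a n).card : ℝ) - 2 := by
      have : ((3 : ℕ) : ℝ) ≤ ((a n).card : ℝ) := by exact_mod_cast hc
      push_cast at this
      linarith
    have h9 : |D k n| ≤ ((a n).card : ℝ) - 2 := by
      show |∑ l ∈ a n, 1 / (l : ℝ) ^ (2 * k) - (((a n).card - 2 : ℕ) : ℝ)| ≤ _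
      rw [h7, abs_le]
      constructor <;> linarith
    rw [abs_mul]
    exact (mul_le_mul_of_nonneg_left h9 (abs_nonneg _)).trans hK
  obtain ⟨τ, _, hτ⟩ := (isCompact_Icc (a := -K) (b := K)).ultrafilter_le_nhds
    (F.map fun n => x n * D 1 n) (by
      rw [Ultrafilter.coe_map, Filter.le_principal_iff, Filter.mem_map]
      filter_upwards [hD 1 le_rfl] with n hn
      exact abs_le.1 hn)
  have hτ' : Tendsto (fun n => x n * D 1 n) F (𝓝 τ) := hτ
  -- the differential equation
  let L : ℤ → ℝ⟦X⟧ := fun n => PowerSeries.mk fun k => coeff k Lsh * x n ^ k * D k n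
  have hL : ∀ k, Tendsto (fun n => coeff k (L n)) F (𝓝 (coeff k (C (τ / 6) * X : ℝ⟦X⟧))) := by
    intro k
    have hc : ∀ n, coeff k (L n) = coeff k Lsh * x n ^ k * D k n := fun n => by
      show coeff k (PowerSeries.mk _) = _
      rw [coeff_mk]
    simp only [hc]
    rcases k with _ | _ | k
    · have h5 : coeff 0 Lsh = 0 := by
        rw [coeff_zero_eq_constantCoeff_apply]
        exact l0
      simp only [h5, zero_mul, coeff_zero_mul_X]
      exact tendsto_const_nhds
    · rw [coeff_succ_mul_X, coeff_zero_C]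
      have h5 := hτ'.const_mul (1 / 6 : ℝ)
      have h6 : 1 / 6 * τ = τ / 6 := by ring
      rw [h6] at h5
      refine h5.congr fun n => ?_
      rw [zero_add, l1, pow_one]
      ring
    · rw [coeff_succ_mul_X, coeff_C, if_neg (Nat.succ_ne_zero k)]
      have h5 : Tendsto (fun n => |coeff (k + 1 + 1) Lsh| * |x n| ^ (k + 1) * K) F (𝓝 0) := by
        have h6 := (((x0.abs).pow (k + 1)).const_mul |coeff (k + 1 + 1) Lsh|).mul_const K
        rw [abs_zero, zero_pow (Nat.succ_ne_zero k), mul_zero, zero_mul] at h6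
        exact h6
      refine squeeze_zero_norm' ?_ h5
      filter_upwards [hD (k + 1 + 1) (by omega)] with n hn
      have h7 : coeff (k + 1 + 1) Lsh * x n ^ (k + 1 + 1) * D (k + 1 + 1) n =
          coeff (k + 1 + 1) Lsh * x n ^ (k + 1) * (x n * D (k + 1 + 1) n) := by ring
      rw [h7, Real.norm_eq_abs, abs_mul, abs_mul, abs_pow]
      exact mul_le_mul_of_nonneg_left hn (by positivity)
  have hf := h2 F (fun n => rescale (x n) (Gm (a n) ((a n).card - 2))) L (expR (τ / 6))
    (C (τ / 6) * X) (Eventually.of_forall fun n => by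
      obtain ⟨h5, h6⟩ := l3 (a n) ((a n).card - 2) (x n)
      refine ⟨h5, ?_, h6⟩
      rw [← coeff_zero_eq_constantCoeff_apply]
      show coeff 0 (PowerSeries.mk _) = _
      rw [coeff_mk, coeff_zero_eq_constantCoeff_apply, l0, zero_mul, zero_mul])
    (by
      rw [← coeff_zero_eq_constantCoeff_apply, coeff_expR]
      simp) (by simp) (th_expR _) hL
  -- the limit
  have hlim : ∀ k, coeff k α = coeff k (expR γ * Tg (expR (τ / 6))) := by
    intro k
    refine tendsto_nhds_unique (d5 k) ?_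
    simp only [coeff_mul]
    refine tendsto_finsetSum _ fun p _ => ?_
    refine Tendsto.mul ?_ ?_
    · simp only [coeff_expR]
      exact (d3.pow p.1).div_const _
    · simp only [Tg, coeff_mk]
      exact (hf p.2).const_mul _
  have hα : α = expR γ * Tg (expR (τ / 6)) := PowerSeries.ext hlim
  rw [hα]
  exact cv γ (τ / 6)

end Pool.Agent.H800.BZ.LIM2
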